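import Pool.Agent.Helper80.KF.Main
import Pool.Agent.Helper37.KF.Stmts2

/-!
# The module `ST_KOMLOS` of `Helper37.KF2`, and the Beck-Fiala statement
-/

namespace Pool.Agent.Helper80.KF

theorem st_komlos (hR : Pool.Agent.Helper90.KOM.ST_RANK) (hS : Pool.Agent.Helper37.KF2.ST_STEP) :
    Pool.Agent.Helper37.KF2.ST_KOMLOS :=
  komlos hR hS

theorem bf_of_rank_step (hR : Pool.Agent.Helper90.KOM.ST_RANK)
    (hS : Pool.Agent.Helper37.KF2.ST_STEP) : BF :=
  bf_of_komlos (komlos hR hS)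

end Pool.Agent.Helper80.KF
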