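import Mathlib

/-!
# Row accounting for the linear look-ahead: a geometric sequence

`y i` is the look-ahead mass of a row at level `i`; it drops at least by the factor `q` at every
level, so the tolerances `exp (-a * y i) * (y i) ^ c` have a bounded sum.
-/

namespace Pool.Agent.Helper80.KF

open Finset

/-- one step of the telescoping bound -/
theorem err_step (r a K : ℝ) (hr0 : 0 ≤ r) (hr1 : r < 1) (ha : 0 < a)
    (hK : 4 + 4 / a + 2 / a ^ 2 ≤ K * (1 - r)) (y u v : ℝ) (hy : 0 ≤ y) (hu : 0 ≤ u)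
    (huy : u ≤ 1 + y) (hv0 : 0 ≤ v) (hv : v ≤ r * u) :
    Real.exp (-a * y) * u ≤ K * (u / (1 + u)) - K * (v / (1 + v)) := by
  have hK0 : 0 ≤ K := by
    have h1 : 0 ≤ 4 + 4 / a + 2 / a ^ 2 := by positivity
    nlinarith [h1.trans hK]
  have hvu : v / (1 + v) ≤ r * u / (1 + r * u) := by
    rw [div_le_div_iff₀ (by positivity) (by positivity)]
    nlinarith
  have hmain : u / (1 + u) - r * u / (1 + r * u) = (1 - r) * u / ((1 + u) * (1 + r * u)) := by
    have h1 : (1 + u) ≠ 0 := by positivity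
    have h2 : (1 + r * u) ≠ 0 := by positivity
    field_simp
    ring
  have hlow : (1 - r) * u / (1 + u) ^ 2 ≤ (1 - r) * u / ((1 + u) * (1 + r * u)) := by
    apply div_le_div_of_nonneg_left
    · exact mul_nonneg (by linarith) hu
    · positivity
    · rw [pow_two]
      apply mul_le_mul_of_nonneg_left _ (by positivity)
      nlinarith
  have hexp : Real.exp (-a * y) * (1 + u) ^ 2 ≤ K * (1 - r) := by
    have h1 : (1 + u) ^ 2 ≤ (2 + y) ^ 2 := by
      apply pow_le_pow_left₀ (by positivity)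
      linarith
    have h2 : (2 + y) ^ 2 ≤ (4 + 4 / a + 2 / a ^ 2) * Real.exp (a * y) := by
      have h3 : 1 + a * y + (a * y) ^ 2 / 2 ≤ Real.exp (a * y) :=
        Real.quadratic_le_exp_of_nonneg (by positivity)
      have h4 : (2 + y) ^ 2 ≤ (4 + 4 / a + 2 / a ^ 2) * (1 + a * y + (a * y) ^ 2 / 2) := by
        have e1 : (4 / a) * (a * y) = 4 * y := by field_simp
        have e2 : (2 / a ^ 2) * ((a * y) ^ 2 / 2) = y ^ 2 := by field_simp
        have p1 : 0 ≤ 4 / a := by positivity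
        have p2 : 0 ≤ 2 / a ^ 2 := by positivity
        have p3 : 0 ≤ a * y := by positivity
        have p4 : 0 ≤ (a * y) ^ 2 / 2 := by positivity
        nlinarith [mul_nonneg p1 p4, mul_nonneg p2 p3, mul_nonneg p2 p4, mul_nonneg p1 p3]
      calc (2 + y) ^ 2 ≤ _ := h4
        _ ≤ _ := mul_le_mul_of_nonneg_left h3 (by positivity)
    calc Real.exp (-a * y) * (1 + u) ^ 2 ≤ Real.exp (-a * y) * ((4 + 4 / a + 2 / a ^ 2) * Real.exp (a * y)) :=
          mul_le_mul_of_nonneg_left (h1.trans h2) (Real.exp_pos _).le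
      _ = (4 + 4 / a + 2 / a ^ 2) * (Real.exp (-a * y) * Real.exp (a * y)) := by ring
      _ = 4 + 4 / a + 2 / a ^ 2 := by
          rw [← Real.exp_add]
          simp
      _ ≤ _ := hK
  have hfin : Real.exp (-a * y) * u ≤ K * ((1 - r) * u / (1 + u) ^ 2) := by
    have h1 : (0 : ℝ) < (1 + u) ^ 2 := by positivity
    have e : K * ((1 - r) * u / (1 + u) ^ 2) = (K * (1 - r)) * u / (1 + u) ^ 2 := by ring
    rw [e, le_div_iff₀ h1]
    calc Real.exp (-a * y) * u * (1 + u) ^ 2 = (Real.exp (-a * y) * (1 + u) ^ 2) * u := by ring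
      _ ≤ K * (1 - r) * u := mul_le_mul_of_nonneg_right hexp hu
  have h5 : K * (v / (1 + v)) ≤ K * (r * u / (1 + r * u)) := mul_le_mul_of_nonneg_left hvu hK0
  have h6 : K * ((1 - r) * u / (1 + u) ^ 2) ≤ K * (u / (1 + u) - r * u / (1 + r * u)) := by
    rw [hmain]
    exact mul_le_mul_of_nonneg_left hlow hK0
  have h7 : K * (u / (1 + u) - r * u / (1 + r * u)) = K * (u / (1 + u)) - K * (r * u / (1 + r * u)) := by
    ring
  linarith

/-- the tolerances of a row have a bounded sum -/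
theorem err (q c a : ℝ) (hq : 1 < q) (hc : 0 < c) (hc1 : c ≤ 1) (ha : 0 < a) :
    ∃ C : ℝ, 0 < C ∧ ∀ (N : ℕ) (y : ℕ → ℝ), (∀ i, 0 ≤ y i) → (∀ i, q * y (i + 1) ≤ y i) →
      ∑ i ∈ range N, Real.exp (-a * y i) * y i ^ c ≤ C := by
  set r : ℝ := (q⁻¹) ^ c with hr
  have hqi : 0 < q⁻¹ := by positivity
  have hr0 : 0 < r := Real.rpow_pos_of_pos hqi c
  have hr1 : r < 1 := Real.rpow_lt_one hqi.le (inv_lt_one_of_one_lt₀ hq) hc
  set K : ℝ := (4 + 4 / a + 2 / a ^ 2) / (1 - r) with hKd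
  have h1r : 0 < 1 - r := by linarith
  have hK : 4 + 4 / a + 2 / a ^ 2 ≤ K * (1 - r) := by
    rw [hKd, div_mul_cancel₀ _ h1r.ne']
  have hK0 : 0 < K := by rw [hKd]; positivity
  refine ⟨K, hK0, fun N y hy0 hy => ?_⟩
  have hstep : ∀ i, Real.exp (-a * y i) * y i ^ c ≤
      K * (y i ^ c / (1 + y i ^ c)) - K * (y (i + 1) ^ c / (1 + y (i + 1) ^ c)) := by
    intro i
    apply err_step r a K hr0.le hr1 ha hK
    · exact hy0 i
    · exact Real.rpow_nonneg (hy0 i) c
    · rcases le_total (y i) 1 with h | h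
      · have := Real.rpow_le_one (hy0 i) h hc.le
        linarith [hy0 i]
      · have := Real.rpow_le_rpow_of_exponent_le h hc1
        rw [Real.rpow_one] at this
        linarith
    · exact Real.rpow_nonneg (hy0 (i + 1)) c
    · have h2 : y (i + 1) ≤ q⁻¹ * y i := by
        rw [← mul_le_mul_iff_right₀ (show (0 : ℝ) < q by linarith)]
        calc q * y (i + 1) ≤ y i := hy i
          _ = q * (q⁻¹ * y i) := by
              rw [← mul_assoc, mul_inv_cancel₀ (by linarith : q ≠ 0), one_mul]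
      calc y (i + 1) ^ c ≤ (q⁻¹ * y i) ^ c := Real.rpow_le_rpow (hy0 _) h2 hc.le
        _ = r * y i ^ c := by rw [Real.mul_rpow hqi.le (hy0 i)]
  calc ∑ i ∈ range N, Real.exp (-a * y i) * y i ^ c
      ≤ ∑ i ∈ range N, (K * (y i ^ c / (1 + y i ^ c)) - K * (y (i + 1) ^ c / (1 + y (i + 1) ^ c))) :=
        sum_le_sum (fun i _ => hstep i)
    _ = K * (y 0 ^ c / (1 + y 0 ^ c)) - K * (y N ^ c / (1 + y N ^ c)) :=
        sum_range_sub' (fun i => K * (y i ^ c / (1 + y i ^ c))) N
    _ ≤ K := by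
        have h0 : 0 ≤ y 0 ^ c := Real.rpow_nonneg (hy0 0) c
        have hN : 0 ≤ y N ^ c := Real.rpow_nonneg (hy0 N) c
        have h1 : y 0 ^ c / (1 + y 0 ^ c) ≤ 1 := by
          rw [div_le_one (by positivity)]
          linarith
        have h2 : 0 ≤ K * (y N ^ c / (1 + y N ^ c)) := by positivity
        nlinarith

end Pool.Agent.Helper80.KF
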