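import Pool.Agent.Helper80.KF.Err

/-!
# Row accounting for the ridges `l0 / (1 + δ * W i)`
-/

namespace Pool.Agent.Helper80.KF

open Finset

/-- one step: the general telescoping bound for a function `F ≤ K (1 - r) / (1 + u) ^ 2` -/
theorem tele_step (r K F : ℝ) (hr0 : 0 ≤ r) (hr1 : r < 1) (hK0 : 0 ≤ K) (u v : ℝ) (hu : 0 ≤ u)
    (hF : F * (1 + u) ^ 2 ≤ K * (1 - r)) (hv0 : 0 ≤ v) (hv : v ≤ r * u) :
    F * u ≤ K * (u / (1 + u)) - K * (v / (1 + v)) := by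
  have hvu : v / (1 + v) ≤ r * u / (1 + r * u) := by
    rw [div_le_div_iff₀ (by positivity) (by positivity)]
    nlinarith
  have hmain : u / (1 + u) - r * u / (1 + r * u) = (1 - r) * u / ((1 + u) * (1 + r * u)) := by
    have h1 : (1 + u) ≠ 0 := by positivity
    have h2 : (1 + r * u) ≠ 0 := by positivity
    field_simp
    ring
  have hlow : (1 - r) * u / (1 + u) ^ 2 ≤ (1 - r) * u / ((1 + u) * (1 + r * u)) := by
    apply div_le_div_of_nonneg_left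
    · exact mul_nonneg (by linarith) hu
    · positivity
    · rw [pow_two]
      apply mul_le_mul_of_nonneg_left _ (by positivity)
      nlinarith
  have hfin : F * u ≤ K * ((1 - r) * u / (1 + u) ^ 2) := by
    have h1 : (0 : ℝ) < (1 + u) ^ 2 := by positivity
    have e : K * ((1 - r) * u / (1 + u) ^ 2) = (K * (1 - r)) * u / (1 + u) ^ 2 := by ring
    rw [e, le_div_iff₀ h1]
    calc F * u * (1 + u) ^ 2 = (F * (1 + u) ^ 2) * u := by ring
      _ ≤ K * (1 - r) * u := mul_le_mul_of_nonneg_right hF hu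
  have h5 : K * (v / (1 + v)) ≤ K * (r * u / (1 + r * u)) := mul_le_mul_of_nonneg_left hvu hK0
  have h6 : K * ((1 - r) * u / (1 + u) ^ 2) ≤ K * (u / (1 + u) - r * u / (1 + r * u)) := by
    rw [hmain]
    exact mul_le_mul_of_nonneg_left hlow hK0
  have h7 : K * (u / (1 + u) - r * u / (1 + r * u)) = K * (u / (1 + u)) - K * (r * u / (1 + r * u)) := by
    ring
  linarith

/-- sum over a geometric sequence: `F i * W i ^ c` has a bounded sum as soon as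
`F i * (1 + W i ^ c) ^ 2` is bounded -/
theorem geom_sum (ρ c B : ℝ) (hρ : 1 < ρ) (hc : 0 < c) (hB : 0 ≤ B) (N : ℕ) (F W : ℕ → ℝ)
    (hW0 : ∀ i, 0 ≤ W i) (hW : ∀ i, ρ * W (i + 1) ≤ W i)
    (hF : ∀ i, F i * (1 + W i ^ c) ^ 2 ≤ B) :
    ∑ i ∈ range N, F i * W i ^ c ≤ B / (1 - (ρ⁻¹) ^ c) := by
  set r : ℝ := (ρ⁻¹) ^ c with hr
  have hqi : 0 < ρ⁻¹ := by positivity
  have hr0 : 0 < r := Real.rpow_pos_of_pos hqi c
  have hr1 : r < 1 := Real.rpow_lt_one hqi.le (inv_lt_one_of_one_lt₀ hρ) hc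
  have h1r : 0 < 1 - r := by linarith
  set K : ℝ := B / (1 - r) with hKd
  have hK0 : 0 ≤ K := by rw [hKd]; positivity
  have hK : B ≤ K * (1 - r) := by rw [hKd, div_mul_cancel₀ _ h1r.ne']
  have hstep : ∀ i, F i * W i ^ c ≤
      K * (W i ^ c / (1 + W i ^ c)) - K * (W (i + 1) ^ c / (1 + W (i + 1) ^ c)) := by
    intro i
    apply tele_step r K (F i) hr0.le hr1 hK0
    · exact Real.rpow_nonneg (hW0 i) c
    · exact (hF i).trans hK
    · exact Real.rpow_nonneg (hW0 (i + 1)) c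
    · have h2 : W (i + 1) ≤ ρ⁻¹ * W i := by
        rw [← mul_le_mul_iff_right₀ (show (0 : ℝ) < ρ by linarith)]
        calc ρ * W (i + 1) ≤ W i := hW i
          _ = ρ * (ρ⁻¹ * W i) := by
              rw [← mul_assoc, mul_inv_cancel₀ (by linarith : ρ ≠ 0), one_mul]
      calc W (i + 1) ^ c ≤ (ρ⁻¹ * W i) ^ c := Real.rpow_le_rpow (hW0 _) h2 hc.le
        _ = r * W i ^ c := by rw [Real.mul_rpow hqi.le (hW0 i)]
  calc ∑ i ∈ range N, F i * W i ^ c
      ≤ ∑ i ∈ range N, (K * (W i ^ c / (1 + W i ^ c)) - K * (W (i + 1) ^ c / (1 + W (i + 1) ^ c))) :=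
        sum_le_sum (fun i _ => hstep i)
    _ = K * (W 0 ^ c / (1 + W 0 ^ c)) - K * (W N ^ c / (1 + W N ^ c)) :=
        sum_range_sub' (fun i => K * (W i ^ c / (1 + W i ^ c))) N
    _ ≤ K := by
        have h0 : 0 ≤ W 0 ^ c := Real.rpow_nonneg (hW0 0) c
        have hN : 0 ≤ W N ^ c := Real.rpow_nonneg (hW0 N) c
        have h1 : W 0 ^ c / (1 + W 0 ^ c) ≤ 1 := by
          rw [div_le_one (by positivity)]
          linarith
        have h2 : 0 ≤ K * (W N ^ c / (1 + W N ^ c)) := by positivity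
        nlinarith

/-- the tolerances `l * min 1 (r / l ^ 2) ^ c`, `l = l0 / (1 + δ * W)`, have a bounded sum -/
theorem err2 (ρ c δ l0 : ℝ) (hρ : 1 < ρ) (hc : 0 < c) (hc1 : c ≤ 1 / 4) (hδ : 0 < δ)
    (hl : 0 < l0) :
    ∃ C : ℝ, 0 < C ∧ ∀ (N : ℕ) (r W : ℕ → ℝ), (∀ i, 0 ≤ r i) → (∀ i, r i ≤ W i) →
      (∀ i, ρ * W (i + 1) ≤ W i) →
      ∑ i ∈ range N, l0 / (1 + δ * W i) * (min 1 (r i / (l0 / (1 + δ * W i)) ^ 2)) ^ c ≤ C := by
  set M : ℝ := 1 + 1 / δ with hM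
  have hM1 : 1 ≤ M := by rw [hM]; have : 0 < 1 / δ := by positivity
                         linarith
  set B : ℝ := l0 * (l0⁻¹ ^ 2) ^ c * (4 * M) with hB
  have hB0 : 0 < B := by
    rw [hB]
    have : 0 < (l0⁻¹ ^ 2) ^ c := Real.rpow_pos_of_pos (by positivity) c
    positivity
  have hqi : 0 < ρ⁻¹ := by positivity
  have hr1 : (ρ⁻¹) ^ c < 1 := Real.rpow_lt_one hqi.le (inv_lt_one_of_one_lt₀ hρ) hc
  refine ⟨B / (1 - (ρ⁻¹) ^ c), div_pos hB0 (by linarith), fun N r W hr0 hrW hW => ?_⟩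
  have hW0 : ∀ i, 0 ≤ W i := fun i => (hr0 i).trans (hrW i)
  refine le_trans ?_ (geom_sum ρ c B hρ hc hB0.le N
    (fun i => l0 * (l0⁻¹ ^ 2) ^ c * ((1 + δ * W i)⁻¹ * ((1 + δ * W i) ^ 2) ^ c)) W hW0 hW ?_)
  · apply sum_le_sum
    intro i _
    have h1 : 0 < 1 + δ * W i := by
      have := mul_nonneg hδ.le (hW0 i)
      linarith
    have e1 : r i / (l0 / (1 + δ * W i)) ^ 2 = (l0⁻¹ ^ 2) * ((1 + δ * W i) ^ 2) * r i := by
      field_simp
    have h2 : (min 1 (r i / (l0 / (1 + δ * W i)) ^ 2)) ^ c ≤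
        (l0⁻¹ ^ 2) ^ c * ((1 + δ * W i) ^ 2) ^ c * W i ^ c := by
      have h3 : 0 ≤ r i / (l0 / (1 + δ * W i)) ^ 2 := div_nonneg (hr0 i) (by positivity)
      calc (min 1 (r i / (l0 / (1 + δ * W i)) ^ 2)) ^ c
          ≤ (r i / (l0 / (1 + δ * W i)) ^ 2) ^ c :=
            Real.rpow_le_rpow (le_min zero_le_one h3) (min_le_right _ _) hc.le
        _ ≤ ((l0⁻¹ ^ 2) * ((1 + δ * W i) ^ 2) * W i) ^ c := by
            rw [e1]
            apply Real.rpow_le_rpow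
            · have := hr0 i
              positivity
            · apply mul_le_mul_of_nonneg_left (hrW i) (by positivity)
            · exact hc.le
        _ = _ := by
            rw [Real.mul_rpow (by positivity) (hW0 i), Real.mul_rpow (by positivity) (by positivity)]
    calc l0 / (1 + δ * W i) * (min 1 (r i / (l0 / (1 + δ * W i)) ^ 2)) ^ c
        ≤ l0 / (1 + δ * W i) * ((l0⁻¹ ^ 2) ^ c * ((1 + δ * W i) ^ 2) ^ c * W i ^ c) :=
          mul_le_mul_of_nonneg_left h2 (by positivity)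
      _ = l0 * (l0⁻¹ ^ 2) ^ c * ((1 + δ * W i)⁻¹ * ((1 + δ * W i) ^ 2) ^ c) * W i ^ c := by
          rw [div_eq_mul_inv]
          ring
  · intro i
    have hw := hW0 i
    set w := W i with hwd
    set g : ℝ := 1 + δ * w with hg
    have hg1 : 1 ≤ g := by rw [hg]; have := mul_nonneg hδ.le hw
                           linarith
    have hg0 : 0 < g := by linarith
    -- `1 + w ≤ M * g`
    have h1w : 1 + w ≤ M * g := by
      rw [hM, hg]
      have : 1 / δ * (δ * w) = w := by field_simp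
      have p : 0 ≤ δ * w := mul_nonneg hδ.le hw
      have p2 : 0 < 1 / δ := by positivity
      nlinarith
    have hs : (1 + w ^ c) ^ 2 ≤ 4 * M * g ^ (1 / 2 : ℝ) := by
      have a1 : w ^ c ≤ (1 + w) ^ (1 / 4 : ℝ) := by
        calc w ^ c ≤ (1 + w) ^ c := Real.rpow_le_rpow hw (by linarith) hc.le
          _ ≤ (1 + w) ^ (1 / 4 : ℝ) := Real.rpow_le_rpow_of_exponent_le (by linarith) hc1
      have a2 : 1 ≤ (1 + w) ^ (1 / 4 : ℝ) := Real.one_le_rpow (by linarith) (by norm_num)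
      have a0 : 0 ≤ w ^ c := Real.rpow_nonneg hw c
      have a3 : (1 + w ^ c) ^ 2 ≤ (2 * (1 + w) ^ (1 / 4 : ℝ)) ^ 2 := by
        apply pow_le_pow_left₀ (by positivity)
        linarith
      have a4 : (2 * (1 + w) ^ (1 / 4 : ℝ)) ^ 2 = 4 * (1 + w) ^ (1 / 2 : ℝ) := by
        rw [mul_pow, ← Real.rpow_natCast ((1 + w) ^ (1 / 4 : ℝ)) 2, ← Real.rpow_mul (by linarith)]
        norm_num
      have a5 : (1 + w) ^ (1 / 2 : ℝ) ≤ (M * g) ^ (1 / 2 : ℝ) :=
        Real.rpow_le_rpow (by linarith) h1w (by norm_num)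
      have a6 : (M * g) ^ (1 / 2 : ℝ) ≤ M * g ^ (1 / 2 : ℝ) := by
        rw [Real.mul_rpow (by linarith) hg0.le]
        apply mul_le_mul_of_nonneg_right _ (Real.rpow_nonneg hg0.le _)
        calc M ^ (1 / 2 : ℝ) ≤ M ^ (1 : ℝ) := Real.rpow_le_rpow_of_exponent_le hM1 (by norm_num)
          _ = M := Real.rpow_one M
      linarith
    have hg2 : g⁻¹ * (g ^ 2) ^ c * g ^ (1 / 2 : ℝ) ≤ 1 := by
      have e : g⁻¹ * (g ^ 2) ^ c * g ^ (1 / 2 : ℝ) = g ^ (-1 + 2 * c + 1 / 2 : ℝ) := by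
        rw [Real.rpow_add hg0, Real.rpow_add hg0, Real.rpow_neg_one, Real.rpow_mul hg0.le]
        norm_num
      rw [e]
      apply Real.rpow_le_one_of_one_le_of_nonpos hg1
      linarith
    have hl0 : 0 < (l0⁻¹ ^ 2) ^ c := Real.rpow_pos_of_pos (by positivity) c
    have hgc : 0 ≤ (g ^ 2) ^ c := Real.rpow_nonneg (by positivity) c
    calc l0 * (l0⁻¹ ^ 2) ^ c * (g⁻¹ * (g ^ 2) ^ c) * (1 + w ^ c) ^ 2
        ≤ l0 * (l0⁻¹ ^ 2) ^ c * (g⁻¹ * (g ^ 2) ^ c) * (4 * M * g ^ (1 / 2 : ℝ)) :=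
          mul_le_mul_of_nonneg_left hs (by positivity)
      _ = (l0 * (l0⁻¹ ^ 2) ^ c * (4 * M)) * (g⁻¹ * (g ^ 2) ^ c * g ^ (1 / 2 : ℝ)) := by ring
      _ ≤ (l0 * (l0⁻¹ ^ 2) ^ c * (4 * M)) * 1 := mul_le_mul_of_nonneg_left hg2 (by positivity)
      _ = B := by rw [hB, mul_one]

end Pool.Agent.Helper80.KF
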