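import Mathlib

/-!
# The linear look-ahead of a row

`Y q A k i S` is the sum of `q ^ (k v - i) * A v S ^ 2` over the elements `v` of rank at least `i`.
It is a geometric sequence in `i`, its weighted sum over all levels and rows is paid by the
elements, and raising one element by one level changes it by a geometric amount.
-/

namespace Pool.Agent.Helper80.KF

open Finset
open scoped Classical

noncomputable section

variable {V R : Type} [Fintype V] [Fintype R]

/-- the look-ahead mass of the row `S` at level `i` -/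
def Y (q : ℝ) (A : V → R → ℝ) (k : V → ℕ) (i : ℕ) (S : R) : ℝ :=
  ∑ v ∈ univ.filter (fun v => i ≤ k v), q ^ (k v - i) * A v S ^ 2

omit [Fintype R] in
theorem Y_nonneg {q : ℝ} (hq : 0 ≤ q) (A : V → R → ℝ) (k : V → ℕ) (i : ℕ) (S : R) :
    0 ≤ Y q A k i S :=
  sum_nonneg (fun v _ => by positivity)

omit [Fintype R] in
/-- the look-ahead drops by the factor `q` at every level -/
theorem Y_geom {q : ℝ} (hq : 0 ≤ q) (A : V → R → ℝ) (k : V → ℕ) (i : ℕ) (S : R) :
    q * Y q A k (i + 1) S ≤ Y q A k i S := by
  unfold Y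
  rw [mul_sum]
  calc ∑ v ∈ univ.filter (fun v => i + 1 ≤ k v), q * (q ^ (k v - (i + 1)) * A v S ^ 2)
      = ∑ v ∈ univ.filter (fun v => i + 1 ≤ k v), q ^ (k v - i) * A v S ^ 2 := by
        apply sum_congr rfl
        intro v hv
        rw [mem_filter] at hv
        have e : k v - i = (k v - (i + 1)) + 1 := by omega
        rw [e, pow_succ]
        ring
    _ ≤ ∑ v ∈ univ.filter (fun v => i ≤ k v), q ^ (k v - i) * A v S ^ 2 := by
        apply sum_le_sum_of_subset_of_nonneg
        · intro v hv
          rw [mem_filter] at hv ⊢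
          exact ⟨hv.1, by omega⟩
        · intro v _ _
          positivity

omit [Fintype R] in
/-- the mass of the live part of a row is at most the look-ahead -/
theorem mass_le_Y {q : ℝ} (hq : 1 ≤ q) (A : V → R → ℝ) (k : V → ℕ) (i : ℕ) (S : R) :
    ∑ v ∈ univ.filter (fun v => i ≤ k v), A v S ^ 2 ≤ Y q A k i S := by
  unfold Y
  apply sum_le_sum
  intro v _
  have h1 : 1 ≤ q ^ (k v - i) := one_le_pow₀ hq
  nlinarith [sq_nonneg (A v S)]

/-- geometric sum used twice -/
theorem geom_le {q G : ℝ} (hq : 0 ≤ q) (hG : q < G) (n : ℕ) :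
    ∑ i ∈ range (n + 1), G ^ i * q ^ (n - i) ≤ G / (G - q) * G ^ n := by
  have hG0 : 0 < G := lt_of_le_of_lt hq hG
  have hGq : 0 < G - q := by linarith
  rw [div_mul_eq_mul_div, le_div_iff₀ hGq, sum_mul]
  have key : ∀ n : ℕ, (∑ i ∈ range (n + 1), G ^ i * q ^ (n - i)) * (G - q) = G ^ (n + 1) - q ^ (n + 1) := by
    intro n
    have := (Commute.all G q).geom_sum₂_mul (n + 1)
    simpa using this
  have h := key n
  rw [sum_mul] at h
  rw [h, pow_succ]
  have : 0 ≤ q ^ (n + 1) := by positivity
  nlinarith

/-- (C1) the look-ahead is paid by the elements -/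
theorem sum_Y_le {q G : ℝ} (hq : 0 ≤ q) (hG : q < G) (A : V → R → ℝ)
    (hA : ∀ v, ∑ S, A v S ^ 2 ≤ 1) (k : V → ℕ) (N : ℕ) :
    ∑ i ∈ range N, G ^ i * ∑ S, Y q A k i S ≤ G / (G - q) * ∑ v, G ^ (k v) := by
  have hG0 : 0 < G := lt_of_le_of_lt hq hG
  have h1 : ∀ i, ∑ S, Y q A k i S ≤ ∑ v ∈ univ.filter (fun v => i ≤ k v), q ^ (k v - i) := by
    intro i
    unfold Y
    rw [sum_comm]
    apply sum_le_sum
    intro v _
    rw [← mul_sum]
    have : 0 ≤ q ^ (k v - i) := by positivity
    nlinarith [hA v]
  calc ∑ i ∈ range N, G ^ i * ∑ S, Y q A k i S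
      ≤ ∑ i ∈ range N, ∑ v : V, (if i ≤ k v then G ^ i * q ^ (k v - i) else 0) := by
        apply sum_le_sum
        intro i _
        rw [← sum_filter]
        calc G ^ i * ∑ S, Y q A k i S ≤ G ^ i * ∑ v ∈ univ.filter (fun v => i ≤ k v), q ^ (k v - i) :=
              mul_le_mul_of_nonneg_left (h1 i) (by positivity)
          _ = _ := by rw [mul_sum]
    _ = ∑ v : V, ∑ i ∈ range N, (if i ≤ k v then G ^ i * q ^ (k v - i) else 0) := sum_comm
    _ ≤ ∑ v : V, G / (G - q) * G ^ (k v) := by
        apply sum_le_sum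
        intro v _
        refine le_trans ?_ (geom_le hq hG (k v))
        rw [← sum_filter]
        apply sum_le_sum_of_subset_of_nonneg
        · intro i hi
          rw [mem_filter] at hi
          rw [mem_range]
          omega
        · intro i _ _
          positivity
    _ = _ := by rw [mul_sum]

omit [Fintype V] in
/-- the power of the rank as a sum over the levels below it -/
theorem pow_rank (G : ℝ) (n : ℕ) : G ^ n = 1 + (G - 1) * ∑ i ∈ range n, G ^ i := by
  have := geom_sum_mul G n
  rw [mul_comm] at this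
  rw [this]
  ring

/-- the sum of the powers of the ranks through the sizes of the reserves -/
theorem sum_pow_rank (G : ℝ) (k : V → ℕ) (N : ℕ) (hN : ∀ v, k v ≤ N) :
    ∑ v, G ^ (k v) = Fintype.card V +
      (G - 1) * ∑ i ∈ range N, G ^ i * (#(univ.filter (fun v => i < k v)) : ℝ) := by
  have h1 : ∀ v, G ^ (k v) = 1 + (G - 1) * ∑ i ∈ range N, (if i < k v then G ^ i else 0) := by
    intro v
    rw [pow_rank G (k v)]
    congr 2
    rw [← sum_filter]
    apply sum_congr _ (fun _ _ => rfl)
    ext i
    rw [mem_filter, mem_range, mem_range]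
    have := hN v
    constructor
    · intro h
      exact ⟨by omega, h⟩
    · intro h
      exact h.2
  simp_rw [h1]
  rw [sum_add_distrib, ← mul_sum, sum_comm]
  simp only [sum_const, card_univ, nsmul_eq_mul, mul_one]
  congr 2
  apply sum_congr rfl
  intro i _
  rw [← sum_filter, sum_const, nsmul_eq_mul, mul_comm]

omit [Fintype R] in
/-- the effect of raising one element by one level -/
theorem Y_raise {q : ℝ} (A : V → R → ℝ) (k : V → ℕ) (u : V) (l : ℕ) (S : R) :
    Y q A (Function.update k u (k u + 1)) l S =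
      Y q A k l S + (if l ≤ k u then (q ^ (k u + 1 - l) - q ^ (k u - l)) * A u S ^ 2
        else if l = k u + 1 then A u S ^ 2 else 0) := by
  unfold Y
  rw [sum_filter, sum_filter]
  rw [← add_sum_erase univ _ (mem_univ u), ← add_sum_erase univ (fun a => if l ≤ k a then _ else _) (mem_univ u)]
  have h1 : ∑ x ∈ univ.erase u, (if l ≤ Function.update k u (k u + 1) x then
        q ^ (Function.update k u (k u + 1) x - l) * A x S ^ 2 else 0) =
      ∑ x ∈ univ.erase u, (if l ≤ k x then q ^ (k x - l) * A x S ^ 2 else 0) := by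
    apply sum_congr rfl
    intro x hx
    rw [Function.update_of_ne (ne_of_mem_erase hx)]
  rw [h1, Function.update_self]
  by_cases h : l ≤ k u
  · rw [if_pos (by omega : l ≤ k u + 1), if_pos h, if_pos h]
    ring
  · by_cases h2 : l = k u + 1
    · rw [if_pos (by omega : l ≤ k u + 1), if_neg h, if_neg h, if_pos h2]
      have e : k u + 1 - l = 0 := by omega
      rw [e]
      ring
    · rw [if_neg (by omega : ¬ l ≤ k u + 1), if_neg h, if_neg h, if_neg h2]
      ring

omit [Fintype R] in
/-- raising one element by one level never lowers the look-ahead -/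
theorem Y_raise_le {q : ℝ} (hq : 1 ≤ q) (A : V → R → ℝ) (k : V → ℕ) (u : V) (l : ℕ) (S : R) :
    Y q A k l S ≤ Y q A (Function.update k u (k u + 1)) l S := by
  rw [Y_raise]
  have h : 0 ≤ (if l ≤ k u then (q ^ (k u + 1 - l) - q ^ (k u - l)) * A u S ^ 2
        else if l = k u + 1 then A u S ^ 2 else 0) := by
    split_ifs with h1 h2
    · apply mul_nonneg _ (sq_nonneg _)
      have : q ^ (k u - l) ≤ q ^ (k u + 1 - l) := pow_le_pow_right₀ hq (by omega)
      linarith
    · exact sq_nonneg _
    · exact le_refl _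
  linarith

/-- (C2) total cost of raising one element -/
theorem sum_raise_le {q G : ℝ} (hq : 1 ≤ q) (hG : q < G) (A : V → R → ℝ)
    (hA : ∀ v, ∑ S, A v S ^ 2 ≤ 1) (k : V → ℕ) (u : V) (N : ℕ) :
    ∑ l ∈ range N, G ^ l * ∑ S, (Y q A (Function.update k u (k u + 1)) l S - Y q A k l S) ≤
      G / (G - q) * G ^ (k u + 1) := by
  have hq0 : 0 ≤ q := by linarith
  have hG0 : 0 < G := by linarith
  have h1 : ∀ l, ∑ S, (Y q A (Function.update k u (k u + 1)) l S - Y q A k l S) ≤
      (if l ≤ k u + 1 then q ^ (k u + 1 - l) else 0) := by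
    intro l
    have e : ∀ S, Y q A (Function.update k u (k u + 1)) l S - Y q A k l S ≤
        (if l ≤ k u + 1 then q ^ (k u + 1 - l) else 0) * A u S ^ 2 := by
      intro S
      rw [Y_raise]
      by_cases h : l ≤ k u
      · rw [if_pos h, if_pos (by omega : l ≤ k u + 1)]
        have : 0 ≤ q ^ (k u - l) := by positivity
        nlinarith [sq_nonneg (A u S)]
      · by_cases h2 : l = k u + 1
        · rw [if_neg h, if_pos h2, if_pos (by omega : l ≤ k u + 1)]
          have e0 : k u + 1 - l = 0 := by omega
          rw [e0]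
          linarith
        · rw [if_neg h, if_neg h2, if_neg (by omega : ¬ l ≤ k u + 1)]
          linarith
    calc _ ≤ ∑ S, (if l ≤ k u + 1 then q ^ (k u + 1 - l) else 0) * A u S ^ 2 := sum_le_sum (fun S _ => e S)
      _ = (if l ≤ k u + 1 then q ^ (k u + 1 - l) else 0) * ∑ S, A u S ^ 2 := by rw [mul_sum]
      _ ≤ (if l ≤ k u + 1 then q ^ (k u + 1 - l) else 0) * 1 := by
          apply mul_le_mul_of_nonneg_left (hA u)
          split_ifs
          · positivity
          · exact le_refl _
      _ = _ := mul_one _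
  calc _ ≤ ∑ l ∈ range N, G ^ l * (if l ≤ k u + 1 then q ^ (k u + 1 - l) else 0) := by
        apply sum_le_sum
        intro l _
        exact mul_le_mul_of_nonneg_left (h1 l) (by positivity)
    _ = ∑ l ∈ range N, (if l ≤ k u + 1 then G ^ l * q ^ (k u + 1 - l) else 0) := by
        apply sum_congr rfl
        intro l _
        split_ifs
        · rfl
        · ring
    _ ≤ ∑ l ∈ range (k u + 1 + 1), G ^ l * q ^ (k u + 1 - l) := by
        rw [← sum_filter]
        apply sum_le_sum_of_subset_of_nonneg
        · intro i hi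
          rw [mem_filter] at hi
          rw [mem_range]
          omega
        · intro i _ _
          positivity
    _ ≤ _ := geom_le hq0 hG (k u + 1)

end

end Pool.Agent.Helper80.KF
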