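import Pool.Agent.Helper80.KF.StErr

/-!
# The Komlos theorem from ranks, one level and the row accounting
-/

namespace Pool.Agent.Helper80.KF

open Finset
open scoped Classical
open Pool.Agent.Helper3.NFR (sw TT EE c0 Ga)
open Pool.Agent.Helper90.KOM (Happy rr ww lam)

noncomputable section

/-- one level -/
def ST_STEP : Prop :=
  ∃ b C : ℝ, 0 < b ∧ b ≤ 1 ∧ 0 < C ∧
    ∀ (V R : Type) [Fintype V] [Fintype R] (a : V → R → ℝ) (lam : R → ℝ) (s : V → ℝ)
      (T E : Finset V), Disjoint T E → (∀ S, 0 < lam S) → (∀ v, 0 ≤ s v) → (∀ v, s v ≤ 1) →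
      (∀ u ∈ E, Happy a b c0 (1 / 100) lam s T E u) →
      ∀ z : V → ℝ, (∀ v, |z v| ≤ 1) → ∃ x ζ : V → ℝ, (∀ v, x v = 1 ∨ x v = -1) ∧
        (∀ v, |ζ v| ≤ s v / 4) ∧
        ∀ S, |∑ u ∈ E, (x u - z u) * a u S + ∑ v ∈ T, ζ v * a v S|
          ≤ C * (lam S * (min 1 (rr a (T ∪ E) S / lam S ^ 2)) ^ (1 / 200 : ℝ))

/-- the Komlos theorem -/
def ST_KOMLOS : Prop :=
  ∃ K : ℝ, 0 < K ∧ ∀ (V R : Type) [Fintype V] [Fintype R] (a : V → R → ℝ),
    (∀ v, ∑ S, (a v S) ^ 2 ≤ 1) → ∃ x : V → ℝ, (∀ v, x v = 1 ∨ x v = -1) ∧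
      ∀ S, |∑ v, x v * a v S| ≤ K

variable {V R : Type} [Fintype V] [Fintype R]

/-- tolerance of the row `S` at level `i` -/
def tol (a : V → R → ℝ) (l0 δ : ℝ) (k : V → ℕ) (i : ℕ) (S : R) : ℝ :=
  lam a l0 δ k i S *
    (min 1 (rr a (TT k i ∪ EE k i) S / (lam a l0 δ k i S) ^ 2)) ^ (1 / 200 : ℝ)

omit [Fintype R] in
theorem ww_nonneg (a : V → R → ℝ) (k : V → ℕ) (i : ℕ) (S : R) : 0 ≤ ww a k i S := by
  unfold ww
  exact sum_nonneg (fun v _ => by positivity)

omit [Fintype R] in
theorem ww_geo (a : V → R → ℝ) (k : V → ℕ) (i : ℕ) (S : R) :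
    40 * ww a k (i + 1) S ≤ ww a k i S := by
  unfold ww
  rw [mul_sum]
  calc ∑ v ∈ univ.filter (fun v => i + 1 ≤ k v), 40 * ((a v S) ^ 2 * 40 ^ (k v - (i + 1)))
      = ∑ v ∈ univ.filter (fun v => i + 1 ≤ k v), (a v S) ^ 2 * 40 ^ (k v - i) := by
        apply sum_congr rfl
        intro v hv
        rw [mem_filter] at hv
        have e : k v - i = (k v - (i + 1)) + 1 := by omega
        rw [e, pow_succ]
        ring
    _ ≤ ∑ v ∈ univ.filter (fun v => i ≤ k v), (a v S) ^ 2 * 40 ^ (k v - i) := by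
        apply sum_le_sum_of_subset_of_nonneg
        · intro v hv
          rw [mem_filter] at hv ⊢
          exact ⟨hv.1, by omega⟩
        · intro v _ _
          positivity

omit [Fintype R] in
theorem rr_le_ww (a : V → R → ℝ) (k : V → ℕ) (i : ℕ) (S : R) :
    rr a (TT k i ∪ EE k i) S ≤ ww a k i S := by
  unfold rr ww
  calc ∑ v ∈ TT k i ∪ EE k i, (a v S) ^ 2
      ≤ ∑ v ∈ univ.filter (fun v => i ≤ k v), (a v S) ^ 2 := by
        apply sum_le_sum_of_subset_of_nonneg
        · intro v hv
          unfold TT EE at hv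
          rw [mem_union, mem_filter, mem_filter] at hv
          rw [mem_filter]
          refine ⟨mem_univ v, ?_⟩
          rcases hv with h | h
          · exact h.2.le
          · exact h.2.ge
        · intro v _ _
          positivity
    _ ≤ _ := by
        apply sum_le_sum
        intro v _
        have h1 : (1 : ℝ) ≤ 40 ^ (k v - i) := one_le_pow₀ (by norm_num)
        nlinarith [sq_nonneg (a v S)]

omit [Fintype R] in
theorem lam_pos (a : V → R → ℝ) {l0 δ : ℝ} (hl : 0 < l0) (hδ : 0 < δ) (k : V → ℕ) (i : ℕ) (S : R) :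
    0 < lam a l0 δ k i S := by
  unfold lam
  have := mul_nonneg hδ.le (ww_nonneg a k i S)
  exact div_pos hl (by linarith)

omit [Fintype V] in
theorem sw_nonneg (k : V → ℕ) (i : ℕ) (v : V) : 0 ≤ sw k i v := by
  unfold sw
  positivity

omit [Fintype V] in
theorem sw_le_one (k : V → ℕ) (i : ℕ) (v : V) : sw k i v ≤ 1 := by
  unfold sw
  rw [div_le_one (by positivity)]
  exact one_le_pow₀ (by norm_num)

theorem disj (k : V → ℕ) (i : ℕ) : Disjoint (TT k i) (EE k i) := by
  rw [disjoint_left]
  intro v h1 h2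
  unfold TT at h1
  unfold EE at h2
  rw [mem_filter] at h1 h2
  omega

omit [Fintype R] in
/-- the iteration -/
theorem iterate (C : ℝ) (k : V → ℕ) (a : V → R → ℝ) (l0 δ : ℝ)
    (hstep : ∀ i, ∀ z : V → ℝ, (∀ v, |z v| ≤ 1) → ∃ x ζ : V → ℝ, (∀ v, x v = 1 ∨ x v = -1) ∧
        (∀ v, |ζ v| ≤ sw k i v / 4) ∧
        ∀ S, |∑ u ∈ EE k i, (x u - z u) * a u S + ∑ v ∈ TT k i, ζ v * a v S|
          ≤ C * tol a l0 δ k i S) (n : ℕ) :
    ∃ x z : V → ℝ, (∀ v, x v = 1 ∨ x v = -1) ∧ (∀ v, n ≤ k v → |z v| ≤ 1 / 2 / 2 ^ (k v - n)) ∧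
      ∀ S, |∑ v ∈ univ.filter (fun v => k v < n), x v * a v S
        + ∑ v ∈ univ.filter (fun v => n ≤ k v), z v * a v S| ≤ ∑ i ∈ range n, C * tol a l0 δ k i S := by
  induction n with
  | zero =>
    refine ⟨fun _ => 1, fun _ => 0, fun _ => Or.inl rfl, fun v _ => ?_, fun S => ?_⟩
    · rw [abs_zero]; positivity
    · simp
  | succ n ih =>
    obtain ⟨x, z, hx, hz, hr⟩ := ih
    obtain ⟨x', ζ, hx', hζ, hr'⟩ := hstep n (fun v => if n ≤ k v then z v else 0) (fun v => by
      split_ifs with h
      · refine (hz v h).trans ?_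
        have h1 : (1 : ℝ) ≤ 2 ^ (k v - n) := one_le_pow₀ (by norm_num)
        rw [div_div, div_le_one (by positivity)]
        linarith
      · rw [abs_zero]; exact zero_le_one)
    refine ⟨fun v => if k v = n then x' v else x v, fun v => z v + ζ v, fun v => ?_, fun v hv => ?_,
      fun S => ?_⟩
    · show (if k v = n then x' v else x v) = 1 ∨ (if k v = n then x' v else x v) = -1
      split_ifs
      · exact hx' v
      · exact hx v
    · have h1 := hz v (by omega)
      have h2 := hζ v
      have e : k v - n = (k v - (n + 1)) + 1 := by omega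
      have e2 : sw k n v = 1 / 2 ^ (k v - (n + 1)) := by
        unfold sw
        rw [Nat.sub_sub]
      rw [e2] at h2
      rw [e, pow_succ] at h1
      calc |z v + ζ v| ≤ |z v| + |ζ v| := abs_add_le _ _
        _ ≤ 1 / 2 / (2 ^ (k v - (n + 1)) * 2) + 1 / 2 ^ (k v - (n + 1)) / 4 := add_le_add h1 h2
        _ = 1 / 2 / 2 ^ (k v - (n + 1)) := by
            field_simp
            ring
    · have hT : univ.filter (fun v => n + 1 ≤ k v) = TT k n := by
        unfold TT
        apply filter_congr
        intro v _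
        exact Nat.succ_le_iff
      have hE : univ.filter (fun v => k v < n + 1) = univ.filter (fun v => k v < n) ∪ EE k n := by
        ext v
        unfold EE
        rw [mem_union, mem_filter, mem_filter, mem_filter]
        constructor
        · rintro ⟨_, h⟩
          rcases Nat.lt_succ_iff_lt_or_eq.mp h with h | h
          · exact Or.inl ⟨mem_univ v, h⟩
          · exact Or.inr ⟨mem_univ v, h⟩
        · rintro (⟨_, h⟩ | ⟨_, h⟩)
          · exact ⟨mem_univ v, by omega⟩
          · exact ⟨mem_univ v, by omega⟩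
      have hd1 : Disjoint (univ.filter (fun v => k v < n)) (EE k n) := by
        rw [disjoint_left]
        intro v h1 h2
        unfold EE at h2
        rw [mem_filter] at h1 h2
        omega
      have hG : univ.filter (fun v => n ≤ k v) = TT k n ∪ EE k n := by
        ext v
        unfold TT EE
        rw [mem_union, mem_filter, mem_filter, mem_filter]
        constructor
        · rintro ⟨_, h⟩
          rcases Nat.lt_or_eq_of_le h with h | h
          · exact Or.inl ⟨mem_univ v, h⟩
          · exact Or.inr ⟨mem_univ v, h.symm⟩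
        · rintro (⟨_, h⟩ | ⟨_, h⟩)
          · exact ⟨mem_univ v, by omega⟩
          · exact ⟨mem_univ v, by omega⟩
      have h1 := hr S
      rw [hG, sum_union (disj k n)] at h1
      have h2 := hr' S
      rw [hT, hE, sum_union hd1, sum_range_succ]
      have e1 : ∑ v ∈ univ.filter (fun v => k v < n), (if k v = n then x' v else x v) * a v S =
          ∑ v ∈ univ.filter (fun v => k v < n), x v * a v S := by
        apply sum_congr rfl
        intro v hv
        rw [mem_filter] at hv
        rw [if_neg (by omega)]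
      have e2 : ∑ v ∈ EE k n, (if k v = n then x' v else x v) * a v S =
          ∑ v ∈ EE k n, x' v * a v S := by
        apply sum_congr rfl
        intro v hv
        unfold EE at hv
        rw [mem_filter] at hv
        rw [if_pos hv.2]
      have e3 : ∑ v ∈ EE k n, (x' v - (if n ≤ k v then z v else 0)) * a v S =
          ∑ v ∈ EE k n, x' v * a v S - ∑ v ∈ EE k n, z v * a v S := by
        rw [← sum_sub_distrib]
        apply sum_congr rfl
        intro v hv
        unfold EE at hv
        rw [mem_filter] at hv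
        rw [if_pos hv.2.ge]
        ring
      have e4 : ∑ v ∈ TT k n, (z v + ζ v) * a v S =
          ∑ v ∈ TT k n, z v * a v S + ∑ v ∈ TT k n, ζ v * a v S := by
        rw [← sum_add_distrib]
        apply sum_congr rfl
        intro v _
        ring
      rw [e1, e2, e4]
      rw [e3] at h2
      have e5 : ∑ v ∈ univ.filter (fun v => k v < n), x v * a v S + ∑ v ∈ EE k n, x' v * a v S +
          (∑ v ∈ TT k n, z v * a v S + ∑ v ∈ TT k n, ζ v * a v S) =
          (∑ v ∈ univ.filter (fun v => k v < n), x v * a v S +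
            (∑ v ∈ TT k n, z v * a v S + ∑ v ∈ EE k n, z v * a v S)) +
          ((∑ v ∈ EE k n, x' v * a v S - ∑ v ∈ EE k n, z v * a v S) +
            ∑ v ∈ TT k n, ζ v * a v S) := by ring
      rw [e5]
      exact (abs_add_le _ _).trans (add_le_add h1 h2)

/-- the Komlos theorem from its modules -/
theorem komlos (hR : Pool.Agent.Helper90.KOM.ST_RANK) (hS : ST_STEP) : ST_KOMLOS := by
  obtain ⟨b, C, hb, hb1, hC, hstep⟩ := hS
  obtain ⟨δ, l0, hδ, _, hl, hrank⟩ := hR b hb hb1
  obtain ⟨C', hC', herr⟩ := st_err (1 / 200) l0 δ (by norm_num) hl hδ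
  refine ⟨C * C', mul_pos hC hC', ?_⟩
  intro V R _ _ a ha
  obtain ⟨k, hk⟩ := hrank V R a ha
  set N : ℕ := univ.sup k + 1 with hN
  have hkN : ∀ v, k v < N := fun v => Nat.lt_succ_of_le (le_sup (mem_univ v))
  obtain ⟨x, z, hx, _, hr⟩ := iterate C k a l0 δ (fun i z hz => by
    exact hstep V R a (lam a l0 δ k i) (sw k i) (TT k i) (EE k i) (disj k i)
      (fun S => lam_pos a hl hδ k i S) (fun v => sw_nonneg k i v) (fun v => sw_le_one k i v)
      (fun u hu => hk i u hu) z hz) N
  refine ⟨x, hx, fun S => ?_⟩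
  have h1 := hr S
  have e1 : univ.filter (fun v => k v < N) = univ := filter_true_of_mem (fun v _ => hkN v)
  have e2 : univ.filter (fun v => N ≤ k v) = ∅ := filter_false_of_mem (fun v _ => by
    have := hkN v
    omega)
  rw [e1, e2, sum_empty, add_zero] at h1
  refine h1.trans ?_
  rw [← mul_sum]
  apply mul_le_mul_of_nonneg_left _ hC.le
  have h2 := herr (fun i => ww a k i S) (fun i => rr a (TT k i ∪ EE k i) S)
    (fun i => by unfold rr; exact sum_nonneg (fun v _ => sq_nonneg _))
    (fun i => rr_le_ww a k i S) (fun i => ww_geo a k i S) N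
  exact h2

/-- the Beck-Fiala statement (frozen statement `S12173`) -/
def BF : Prop :=
  ∃ C : ℝ, 0 < C ∧
      ∀ (n m t : ℕ) (S : Fin m → Finset (Fin n)),
        (∀ i : Fin n, (Finset.univ.filter (fun j : Fin m => i ∈ S j)).card ≤ t) →
        ∃ χ : Fin n → ℤ, (∀ i, χ i = 1 ∨ χ i = -1) ∧
          ∀ j : Fin m, ((|∑ i ∈ S j, χ i| : ℤ) : ℝ) ≤ C * Real.sqrt (t : ℝ)

/-- Beck-Fiala from Komlos -/
theorem bf_of_komlos (h : ST_KOMLOS) : BF := by
  obtain ⟨K, hK, h⟩ := h
  refine ⟨K, hK, fun n m t S hS => ?_⟩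
  rcases Nat.eq_zero_or_pos t with ht | ht
  · subst ht
    refine ⟨fun _ => 1, fun _ => Or.inl rfl, fun j => ?_⟩
    have he : S j = ∅ := by
      rw [eq_empty_iff_forall_notMem]
      intro i hi
      have h1 := hS i
      rw [Nat.le_zero, card_eq_zero] at h1
      have h2 : j ∈ univ.filter (fun j : Fin m => i ∈ S j) := by
        rw [mem_filter]
        exact ⟨mem_univ j, hi⟩
      rw [h1] at h2
      exact notMem_empty j h2
    rw [he]
    simp
  · have ht0 : (0 : ℝ) < Real.sqrt t := Real.sqrt_pos.mpr (by exact_mod_cast ht)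
    have hsq : Real.sqrt t ^ 2 = (t : ℝ) := Real.sq_sqrt (by positivity)
    obtain ⟨x, hx, hr⟩ := h (Fin n) (Fin m) (fun v j => if v ∈ S j then 1 / Real.sqrt t else 0)
      (fun v => by
        have e : ∑ j : Fin m, (if v ∈ S j then 1 / Real.sqrt t else 0 : ℝ) ^ 2 =
            (#(univ.filter (fun j : Fin m => v ∈ S j)) : ℝ) * (1 / t) := by
          have e1 : ∀ j : Fin m, (if v ∈ S j then 1 / Real.sqrt t else 0 : ℝ) ^ 2 =
              if v ∈ S j then (1 / t : ℝ) else 0 := by
            intro j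
            split_ifs
            · rw [div_pow, one_pow, hsq]
            · simp
          simp_rw [e1]
          rw [← sum_filter, sum_const, nsmul_eq_mul]
        rw [e, mul_one_div, div_le_one (by exact_mod_cast ht)]
        exact_mod_cast hS v)
    refine ⟨fun i => if x i = 1 then 1 else -1, fun i => ?_, fun j => ?_⟩
    · show (if x i = 1 then 1 else -1 : ℤ) = 1 ∨ (if x i = 1 then 1 else -1 : ℤ) = -1
      split_ifs
      · exact Or.inl rfl
      · exact Or.inr rfl
    · have hxi : ∀ i, ((if x i = 1 then 1 else -1 : ℤ) : ℝ) = x i := by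
        intro i
        rcases hx i with h1 | h1
        · rw [if_pos h1, h1]
          norm_num
        · rw [if_neg (by rw [h1]; norm_num), h1]
          norm_num
      have h1 := hr j
      have e : ∑ v, x v * (if v ∈ S j then 1 / Real.sqrt t else 0 : ℝ) =
          (∑ i ∈ S j, x i) / Real.sqrt t := by
        rw [sum_div]
        have e1 : ∀ v, x v * (if v ∈ S j then 1 / Real.sqrt t else 0 : ℝ) =
            if v ∈ S j then x v / Real.sqrt t else 0 := by
          intro v
          split_ifs
          · rw [mul_one_div]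
          · rw [mul_zero]
        simp_rw [e1]
        rw [← sum_filter]
        congr 1
        ext v
        simp
      rw [e, abs_div, abs_of_pos ht0, div_le_iff₀ ht0] at h1
      rw [Int.cast_abs, Int.cast_sum]
      rw [sum_congr rfl (fun i _ => hxi i)]
      exact h1

end

end Pool.Agent.Helper80.KF
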