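import Pool.Agent.Helper80.KF.Err2
import Pool.Agent.Helper90.KOM.Stmts

/-!
# The module `ST_ERR` of `Helper90.KOM`
-/

namespace Pool.Agent.Helper80.KF

open Finset

theorem st_err : Pool.Agent.Helper90.KOM.ST_ERR := by
  intro γ l0 δ hγ hl hδ
  obtain ⟨C, hC, h⟩ := err2 40 (min γ (1 / 4)) δ l0 (by norm_num) (lt_min hγ (by norm_num))
    (min_le_right _ _) hδ hl
  refine ⟨C, hC, fun W r hr hrW hW N => le_trans (sum_le_sum (fun i _ => ?_)) (h N r W hr hrW hW)⟩
  have hW0 : 0 ≤ W i := (hr i).trans (hrW i)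
  have h1 : 0 < 1 + δ * W i := by
    have := mul_nonneg hδ.le hW0
    linarith
  have hl1 : 0 < l0 / (1 + δ * W i) := div_pos hl h1
  apply mul_le_mul_of_nonneg_left _ hl1.le
  have hx : 0 ≤ min 1 (r i / (l0 / (1 + δ * W i)) ^ 2) :=
    le_min zero_le_one (div_nonneg (hr i) (by positivity))
  rcases hx.eq_or_lt with h0 | h0
  · rw [← h0, Real.zero_rpow hγ.ne', Real.zero_rpow (lt_min hγ (by norm_num)).ne']
  · exact Real.rpow_le_rpow_of_exponent_ge h0 (min_le_left _ _) (min_le_left _ _)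

end Pool.Agent.Helper80.KF
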